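import Pool.Agent.X167.BH.Fin

/-!
# MP_c4e285_co, Q1: a single element `c` does not suffice

In the countable abelian group `G = ⊕ ℤ/2` (finitely supported sequences) there are a set `B` of
upper Banach density at least `1/2 - ε` and a partition of `G` into two sets `A 0`, `A 1` such that
`B + c + A i` contains no Bohr set, for every `c` in `G` and `i = 0, 1`.  (Equivalently: neither
`B + A 0` nor `B + A 1` contains a translate of a Bohr set.)  So the answer to Q1 is negative, even
for `C = G`.

Idea.  Cut the coordinates into long blocks, with vectors `z_k` supported before block `k` such that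
every vector of `G` is `z_k` for infinitely many even and infinitely many odd `k`.  Let `M_k(y)` be
the majority of block `k` of `y`.  The map `Ψ(y) = y + Σ M_k(y) z_k` is a bijection of `G`, and
`B = Ψ(Y)` for the set `Y` of the `y` all of whose blocks are far from a tie and which have an even
number of even `k` with `M_k(y) = 1`.  If `u` is almost the all-one vector of block `k` then
`Ψ(y + u) = Ψ(y) + z_k + u`, so that the translations by `z_k + u` preserve (`k` odd) or change
(`k` even) the parity.  The sets `E_1`, `E_0` of the `z_k + u` with odd and even `k` meet all the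
cosets of all the subgroups of finite index, and `E_0 + E_1` is disjoint from `B + B`.  Put
`A 0 = E_1 + B`.
-/

set_option autoImplicit false

namespace Pool.Agent.Results.MP_c4e285_co.NoSingleTranslate

open Filter Topology
open scoped Classical Pointwise

/-- `F` is a Følner sequence of the abelian group `H`: finite nonempty sets with
`|(g + F n) △ F n| / |F n| → 0` for all `g`. -/
def IsFolner {H : Type} [AddCommGroup H] (F : ℕ → Finset H) : Prop :=
  (∀ n, (F n).Nonempty) ∧ ∀ g : H, Tendsto (fun n =>
    ((symmDiff ((F n).map (addLeftEmbedding g)) (F n)).card : ℝ) / (F n).card) atTop (𝓝 0)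

/-- `|A ∩ F n| / |F n|` -/
noncomputable def density {H : Type} (A : Set H) (F : ℕ → Finset H) (n : ℕ) : ℝ :=
  (((F n).filter (fun x => x ∈ A)).card : ℝ) / (F n).card

/-- The upper Banach density `d^*(A)`: the supremum of `limsup |A ∩ F n| / |F n|` over all Følner
sequences. -/
noncomputable def upperBanach {H : Type} [AddCommGroup H] (A : Set H) : ℝ :=
  sSup {d | ∃ F : ℕ → Finset H, IsFolner F ∧ d = limsup (fun n => density A F n) atTop}

/-- `S` contains a Bohr set: the set of all `g` with `|χ_j(g) - 1| < η` for `j < k`, for some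
characters `χ_0, ..., χ_{k-1}` and some `η > 0`. -/
def ContainsBohr {H : Type} [AddCommGroup H] (S : Set H) : Prop :=
  ∃ (k : ℕ) (χ : Fin k → AddChar H Circle) (η : ℝ), 0 < η ∧
    {g | ∀ j, ‖((χ j g : Circle) : ℂ) - 1‖ < η} ⊆ S

/-- **Negative answer to Q1.**  Let `G` be the (countable, abelian) group of the finitely supported
sequences of elements of `ℤ/2`.  For every `ε > 0` there are sets `B`, `C` with `d^*(B) ≥ 1/2 - ε`
and `d^*(C) = 1` (in fact `C = G`) and a partition `G = A 0 ∪ A 1` such that for every `c ∈ C` and
every `i` the set `B + c + A i` contains no Bohr set. -/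
theorem result (ε : ℝ) (hε : 0 < ε) :
    ∃ (B C : Set (ℕ →₀ ZMod 2)) (A : Fin 2 → Set (ℕ →₀ ZMod 2)),
      1 / 2 - ε ≤ upperBanach B ∧ C = Set.univ ∧ upperBanach C = 1 ∧
      (⋃ i, A i) = Set.univ ∧ Disjoint (A 0) (A 1) ∧
      ∀ c ∈ C, ∀ i : Fin 2, ¬ ContainsBohr (B + {c} + A i) := by
  obtain ⟨B, A, h1, h2, h3, h4⟩ := Pool.Agent.X167.BH.main ε hε
  exact ⟨B, Set.univ, A, h1, rfl, Pool.Agent.X167.BH.banach_univ, h2, h3, fun c _ i => h4 c i⟩

end Pool.Agent.Results.MP_c4e285_co.NoSingleTranslate
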